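import Mathlib

/-!
# The twist graph of the 3-coloured 14-gon is connected

Vertices of the convex `N`-gon are `1, …, N`; vertex `i` has colour `i mod 3`.
-/

set_option autoImplicit false

namespace Pool.Agent.Results.MP_b57ad3_co.TwistConnected

/-- The pair `e = (a, b)`, `a < b`, is a diagonal of the convex `N`-gon with vertices `1, …, N`. -/
def IsDiagonal (N : ℕ) (e : ℕ × ℕ) : Prop :=
  1 ≤ e.1 ∧ e.1 + 2 ≤ e.2 ∧ e.2 ≤ N ∧ ¬ (e.1 = 1 ∧ e.2 = N)

/-- Two diagonals cross (in an interior point) iff their end points alternate. -/
def Cross (e f : ℕ × ℕ) : Prop :=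
  (e.1 < f.1 ∧ f.1 < e.2 ∧ e.2 < f.2) ∨ (f.1 < e.1 ∧ e.1 < f.2 ∧ f.2 < e.2)

/-- A triangulation of the convex `N`-gon: a maximal set of pairwise non-crossing diagonals. -/
def IsTriangulation (N : ℕ) (T : Finset (ℕ × ℕ)) : Prop :=
  (∀ e ∈ T, IsDiagonal N e) ∧ (∀ e ∈ T, ∀ f ∈ T, ¬ Cross e f) ∧
    ∀ e, IsDiagonal N e → (∀ f ∈ T, ¬ Cross e f) → e ∈ T

/-- The segment `ab`, `a < b`, is a side of the `N`-gon or a diagonal of `T`. -/
def IsEdge (N : ℕ) (T : Finset (ℕ × ℕ)) (a b : ℕ) : Prop :=
  (1 ≤ a ∧ b = a + 1 ∧ b ≤ N) ∨ (a = 1 ∧ b = N) ∨ (a, b) ∈ T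

/-- `a < b < c` are the vertices of a triangle of `T`. -/
def IsTriangle (N : ℕ) (T : Finset (ℕ × ℕ)) (a b c : ℕ) : Prop :=
  a < b ∧ b < c ∧ IsEdge N T a b ∧ IsEdge N T b c ∧ IsEdge N T a c

/-- Every triangle of `T` has vertices of all three colours. -/
def Colorful (N : ℕ) (T : Finset (ℕ × ℕ)) : Prop :=
  ∀ a b c, IsTriangle N T a b c → a % 3 ≠ b % 3 ∧ b % 3 ≠ c % 3 ∧ a % 3 ≠ c % 3

/-- `T'` arises from `T` by the twist in the hexagon `a₁ < a₂ < ⋯ < a₆`: the sides of the hexagon
are sides of the polygon or diagonals of `T`, the inner triangle `a₁ a₃ a₅` of `T` has three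
diagonals as its sides, and these are replaced by the sides of `a₂ a₄ a₆`. -/
def TwistAt (N : ℕ) (T T' : Finset (ℕ × ℕ)) (a₁ a₂ a₃ a₄ a₅ a₆ : ℕ) : Prop :=
  a₁ < a₂ ∧ a₂ < a₃ ∧ a₃ < a₄ ∧ a₄ < a₅ ∧ a₅ < a₆ ∧
  IsEdge N T a₁ a₂ ∧ IsEdge N T a₂ a₃ ∧ IsEdge N T a₃ a₄ ∧
  IsEdge N T a₄ a₅ ∧ IsEdge N T a₅ a₆ ∧ IsEdge N T a₁ a₆ ∧
  (a₁, a₃) ∈ T ∧ (a₃, a₅) ∈ T ∧ (a₁, a₅) ∈ T ∧
  T' = (T \ {(a₁, a₃), (a₃, a₅), (a₁, a₅)}) ∪ {(a₂, a₄), (a₄, a₆), (a₂, a₆)}

/-- `T` and `T'` differ by a single twist. (For a hexagon `h₁ ⋯ h₆` the twist replaces the inner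
triangle `h₁ h₃ h₅` by `h₂ h₄ h₆`; if the hexagon has the vertices `a₁ < ⋯ < a₆`, then the inner
triangle of `T` is `a₁ a₃ a₅` or `a₂ a₄ a₆`. In the second case `T` arises from `T'` by
replacing `a₁ a₃ a₅` by `a₂ a₄ a₆`.) -/
def Twist (N : ℕ) (T T' : Finset (ℕ × ℕ)) : Prop :=
  ∃ a₁ a₂ a₃ a₄ a₅ a₆ : ℕ, TwistAt N T T' a₁ a₂ a₃ a₄ a₅ a₆ ∨ TwistAt N T' T a₁ a₂ a₃ a₄ a₅ a₆

/-- The graph `𝓗_N`: its vertices are the colorful triangulations of the convex `N`-gon, two of
them adjacent when they differ by a single twist. -/
def twistGraph (N : ℕ) :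
    SimpleGraph {T : Finset (ℕ × ℕ) // IsTriangulation N T ∧ Colorful N T} where
  Adj T T' := T ≠ T' ∧ Twist N T.1 T'.1
  symm := ⟨by
    rintro T T' ⟨h, a₁, a₂, a₃, a₄, a₅, a₆, h'⟩
    exact ⟨h.symm, a₁, a₂, a₃, a₄, a₅, a₆, h'.symm⟩⟩
  loopless := ⟨fun T h => h.1 rfl⟩

/-! ## The structure of a triangulation -/

theorem exists_apex {N : ℕ} {T : Finset (ℕ × ℕ)} (hT : IsTriangulation N T) {i j : ℕ}
    (hij : IsEdge N T i j) (h2 : i + 2 ≤ j) (hi : 1 ≤ i) (hj : j ≤ N) :
    ∃ k, i < k ∧ k < j ∧ IsEdge N T i k ∧ IsEdge N T k j := by
  classical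
  obtain ⟨hd, hc, hm⟩ := hT
  -- the largest `k < j` such that `ik` is an edge
  have hex : ∃ k, k < j ∧ i < k ∧ IsEdge N T i k :=
    ⟨i + 1, by omega, by omega, Or.inl ⟨hi, rfl, by omega⟩⟩
  let P : ℕ → Prop := fun k => k < j ∧ i < k ∧ IsEdge N T i k
  have hP : P (Nat.findGreatest P j) := by
    obtain ⟨k, hk⟩ := hex
    exact Nat.findGreatest_spec (P := P) (m := k) (by omega) hk
  set k := Nat.findGreatest P j with hk
  have hmax : ∀ k', k < k' → ¬ P k' := by
    intro k' h h'
    have := Nat.le_findGreatest (P := P) (n := j) (by have := h'.1; omega) h'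
    omega
  obtain ⟨hkj, hik, hek⟩ := hP
  refine ⟨k, hik, hkj, hek, ?_⟩
  by_cases hs : j = k + 1
  · exact Or.inl ⟨by omega, by omega, hj⟩
  right; right
  apply hm
  · exact ⟨by simp only; omega, by simp only; omega, hj, by simp only; omega⟩
  · rintro ⟨c, d⟩ hcd hcr
    have hcd' := hd _ hcd
    simp only [IsDiagonal] at hcd'
    simp only [Cross] at hcr
    -- `(c, d)` does not cross `(i, j)`
    have h1 : ¬ ((i < c ∧ c < j ∧ j < d) ∨ (c < i ∧ i < d ∧ d < j)) := by
      rcases hij with h | h | h
      · omega
      · omega
      · exact hc _ h _ hcd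
    -- `(c, d)` does not cross `(i, k)`
    have h2 : ¬ ((i < c ∧ c < k ∧ k < d) ∨ (c < i ∧ i < d ∧ d < k)) := by
      rcases hek with h | h | h
      · omega
      · omega
      · exact hc _ h _ hcd
    have h3 : ¬ (c = i ∧ k < d ∧ d < j) := by
      rintro ⟨h3, h4, h5⟩
      rw [h3] at hcd
      exact hmax d h4 ⟨h5, by omega, Or.inr (Or.inr hcd)⟩
    clear_value k
    clear hmax hm hk
    omega

theorem not_cross_edge {N : ℕ} {T : Finset (ℕ × ℕ)} (hT : IsTriangulation N T) {i j c d : ℕ}
    (hij : IsEdge N T i j) (hcd : (c, d) ∈ T) :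
    ¬ ((i < c ∧ c < j ∧ j < d) ∨ (c < i ∧ i < d ∧ d < j)) := by
  obtain ⟨hd, hc, hm⟩ := hT
  have hcd' := hd _ hcd
  simp only [IsDiagonal] at hcd'
  rcases hij with h | h | h
  · omega
  · omega
  · exact hc _ h _ hcd

/-! ## Enumeration -/

/-- the bit of the pair `(a, b)` -/
def ix (a b : ℕ) : ℕ := 16 * a + b

/-- the code of the segment `ab` if it is not a side -/
def eC (a b : ℕ) : ℕ := if b ≤ a + 1 then 0 else 2 ^ ix a b

/-- codes of the colorful triangulations of the polygon `i, …, j` -/
def enumC : ℕ → ℕ → ℕ → List ℕ
  | 0, _, _ => [0]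
  | f + 1, i, j =>
    if j ≤ i + 1 then [0] else
      (List.range (j - i - 1)).flatMap fun r =>
        if i % 3 ≠ (i + 1 + r) % 3 ∧ (i + 1 + r) % 3 ≠ j % 3 then
          (enumC f i (i + 1 + r)).flatMap fun A =>
            (enumC f (i + 1 + r) j).map fun B =>
              (A ||| B) ||| (eC i (i + 1 + r) ||| eC (i + 1 + r) j)
        else []

theorem ix_inj {a b c d : ℕ} (hb : b < 16) (hd : d < 16) : ix a b = ix c d ↔ a = c ∧ b = d := by
  unfold ix
  omega

theorem testBit_eC {a b c d : ℕ} (hb : b < 16) (hd : d < 16) :
    (eC a b).testBit (ix c d) = true ↔ a + 2 ≤ b ∧ a = c ∧ b = d := by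
  unfold eC
  split_ifs with h
  · simp only [Nat.zero_testBit, Bool.false_eq_true, false_iff]
    omega
  · rw [Nat.testBit_two_pow, decide_eq_true_iff, ix_inj hb hd]
    omega

/-- `c` encodes the part of `T` inside the polygon `i, …, j`. -/
def Codes (T : Finset (ℕ × ℕ)) (i j c : ℕ) : Prop :=
  ∀ a b, a < 16 → b < 16 → (c.testBit (ix a b) = true ↔
    (i ≤ a ∧ a + 2 ≤ b ∧ b ≤ j ∧ ¬ (a = i ∧ b = j) ∧ (a, b) ∈ T))

theorem exists_code {T : Finset (ℕ × ℕ)} (hT : IsTriangulation 14 T) (hC : Colorful 14 T) :
    ∀ (f i j : ℕ), j ≤ i + 1 + f → 1 ≤ i → i < j → j ≤ 14 → IsEdge 14 T i j →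
      ∃ c ∈ enumC f i j, Codes T i j c := by
  intro f
  induction f with
  | zero =>
    intro i j h1 h2 h3 h4 h5
    refine ⟨0, by simp [enumC], ?_⟩
    intro a b _ _
    simp only [Nat.zero_testBit, Bool.false_eq_true, false_iff]
    omega
  | succ f ih =>
    intro i j h1 h2 h3 h4 h5
    by_cases hs : j ≤ i + 1
    · refine ⟨0, by simp [enumC, hs], ?_⟩
      intro a b _ _
      simp only [Nat.zero_testBit, Bool.false_eq_true, false_iff]
      omega
    · obtain ⟨k, hik, hkj, he1, he2⟩ := exists_apex hT h5 (by omega) h2 h4
      obtain ⟨A, hA, hA'⟩ := ih i k (by omega) h2 hik (by omega) he1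
      obtain ⟨B, hB, hB'⟩ := ih k j (by omega) (by omega) hkj h4 he2
      have hcol := hC i k j ⟨hik, hkj, he1, he2, h5⟩
      refine ⟨(A ||| B) ||| (eC i k ||| eC k j), ?_, ?_⟩
      · rw [enumC, if_neg hs, List.mem_flatMap]
        refine ⟨k - i - 1, by rw [List.mem_range]; omega, ?_⟩
        have hk : i + 1 + (k - i - 1) = k := by omega
        rw [hk, if_pos ⟨hcol.1, hcol.2.1⟩, List.mem_flatMap]
        exact ⟨A, hA, List.mem_map.2 ⟨B, hB, rfl⟩⟩
      · intro a b ha hb
        have hmem1 : i + 2 ≤ k → (i, k) ∈ T := by
          intro h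
          rcases he1 with h' | h' | h'
          · omega
          · omega
          · exact h'
        have hmem2 : k + 2 ≤ j → (k, j) ∈ T := by
          intro h
          rcases he2 with h' | h' | h'
          · omega
          · omega
          · exact h'
        simp only [Nat.testBit_or, Bool.or_eq_true, hA' a b ha hb, hB' a b ha hb,
          testBit_eC (show k < 16 by omega) hb, testBit_eC (show j < 16 by omega) hb]
        constructor
        · rintro ((⟨g1, g2, g3, g4, g5⟩ | ⟨g1, g2, g3, g4, g5⟩) | (⟨g1, rfl, rfl⟩ | ⟨g1, rfl, rfl⟩))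
          · exact ⟨g1, g2, by omega, by omega, g5⟩
          · exact ⟨by omega, g2, g3, by omega, g5⟩
          · exact ⟨le_refl _, g1, by omega, by omega, hmem1 g1⟩
          · exact ⟨by omega, g1, le_refl _, by omega, hmem2 g1⟩
        · rintro ⟨g1, g2, g3, g4, g5⟩
          have n1 := not_cross_edge hT he1 g5
          have n2 := not_cross_edge hT he2 g5
          have n3 := not_cross_edge hT h5 g5
          rcases Nat.lt_trichotomy k a with h | h | h
          · exact Or.inl (Or.inr ⟨by omega, g2, g3, by omega, g5⟩)
          · subst h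
            by_cases hbj : b = j
            · subst hbj
              exact Or.inr (Or.inr ⟨g2, rfl, rfl⟩)
            · exact Or.inl (Or.inr ⟨by omega, g2, g3, by omega, g5⟩)
          · -- `a < k`
            by_cases hbk : b ≤ k
            · by_cases hh : a = i ∧ b = k
              · obtain ⟨rfl, rfl⟩ := hh
                exact Or.inr (Or.inl ⟨g2, rfl, rfl⟩)
              · exact Or.inl (Or.inl ⟨g1, g2, hbk, hh, g5⟩)
            · exfalso
              omega

/-- decoding -/
def dec (c : ℕ) : Finset (ℕ × ℕ) :=
  ((Finset.range 15) ×ˢ (Finset.range 15)).filter fun e => c.testBit (ix e.1 e.2) = true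

theorem mem_dec {c a b : ℕ} : (a, b) ∈ dec c ↔ a < 15 ∧ b < 15 ∧ c.testBit (ix a b) = true := by
  simp only [dec, Finset.mem_filter, Finset.mem_product, Finset.mem_range, and_assoc]

theorem eq_dec {T : Finset (ℕ × ℕ)} (hT : IsTriangulation 14 T) (hC : Colorful 14 T) :
    ∃ c ∈ enumC 13 1 14, T = dec c := by
  obtain ⟨c, hc, h⟩ := exists_code hT hC 13 1 14 (by omega) le_rfl (by omega) le_rfl
    (Or.inr (Or.inl ⟨rfl, rfl⟩))
  refine ⟨c, hc, ?_⟩
  ext ⟨a, b⟩
  rw [mem_dec]
  constructor
  · intro hab
    have := hT.1 _ hab
    simp only [IsDiagonal] at this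
    refine ⟨by omega, by omega, ?_⟩
    rw [h a b (by omega) (by omega)]
    exact ⟨by omega, by omega, by omega, by omega, hab⟩
  · rintro ⟨h1, h2, h3⟩
    rw [h a b (by omega) (by omega)] at h3
    exact h3.2.2.2.2

/-! ## The table: code, index of the parent, hexagon, direction -/

/-- breadth first search tree of the twist graph -/
def table : List (ℕ × ℕ × List ℕ × Bool) := [
(102844034862507296542631886130721218876043382132016149640511488, 0, [1,2,3,4,5,6], true),
  (784637717517070135732883334217224650039001016288944848896, 0, [9,10,11,12,13,14], false),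
  (102844034862506931167570914819772399184992345360125124059594752, 0, [6,7,8,9,10,14], false),
  (102844034862507296542631886129423144815848768134067681489321984, 0, [3,4,5,6,7,14], false),
  (784637717151697513905579042591908606718187066700939657216, 1, [6,7,8,9,13,14], false),
  (784637717517070135732882036143164455425003067820793659392, 1, [3,4,5,6,7,14], false),
  (784637716923335443928619615724591989957126861332175912960, 2, [6,10,11,12,13,14], false),
  (102844034838561688342935197981452186979146713399503218750783488, 2, [4,6,8,10,12,14], false),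
  (102844034862506931167570914818474326207995265989085975577886720, 2, [3,4,5,6,10,14], false),
  (102844034862506931167570914818372913076779473370344889841614848, 3, [3,7,8,9,10,14], false),
  (102844034862507296542631801058831415200202917285391145586130944, 3, [1,3,5,7,9,14], false),
  (5986310711037217223381219632287966711975674634567680, 4, [8,9,10,11,12,13], false),
  (784637717151697513905577744527597189915831302109813800960, 4, [3,4,5,6,13,14], false),
  (784637717151697513905577075198331491601443028576747651072, 5, [3,7,8,9,13,14], false),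
  (784637717517070135647811444413548809574154391284890468352, 5, [1,3,5,7,9,14], false),
  (784637716969007021659358783423271694954598646432322289664, 6, [6,7,8,9,10,11], true),
  (784637716923335443928618317660280573154771096741050056704, 6, [3,4,5,6,13,14], false),
  (102844034838561688342935219249079842234693787284082282887380992, 7, [4,5,6,7,8,12], true),
  (102844034832575423306611740500570882836606586209614926512128000, 7, [4,8,9,10,11,12], false),
  (5986310711037217221434108310039899640756554114269184, 7, [3,4,8,12,13,14], false),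
  (102844034862506931167222468333101865516934782399932901045567488, 8, [5,6,7,8,9,10], false),
  (784637716923335443928617506355230846813821168055159881728, 8, [3,10,11,12,13,14], false),
  (102844034838561688341541401406625158860531837236647882081697792, 8, [1,3,5,10,12,14], false),
  (102844034862506931167570914818393195331646523043163893513322496, 9, [3,4,5,6,7,8], true),
  (784637716923335443928617404942099631021202426969423609856, 9, [3,10,11,12,13,14], false),
  (102844034838561688342935197981431904723901869868426219357732864, 9, [1,3,8,10,12,14], false),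
  (102844034862507296542631801058831415200212362009351953361928192, 10, [1,2,3,4,5,9], true),
  (102844034862507296542631798400395705266262298594838300485746688, 10, [1,5,6,7,8,9], false),
  (102844034838561688342935304320969641577366320710567934040735744, 11, [6,7,8,12,13,14], true),
  (5986310711037217222083155320871164356211083508711424, 11, [3,4,5,6,13,14], false),
  (784637717151694726315085714872531121716284207597705756672, 12, [5,6,7,8,9,13], false),
  (784637717151697513905577095480586358651115847580419358720, 13, [3,4,5,6,7,8], true),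
  (5986310711037217221413826055172849967937550442561536, 13, [8,9,10,11,12,13], false),
  (784637717517070135647811444413548819018878352092666265600, 14, [1,2,3,4,5,9], true),
  (784637717517070135645153008703614868955463838439790084096, 14, [1,5,6,7,8,9], false),
  (102844034832575423306611860132368295283937698893921548153389056, 15, [6,7,11,12,13,14], true),
  (784637716969007021659357485358960278152242881841196433408, 15, [3,4,5,6,13,14], false),
  (5986310706855827496790762202631166835120367185952768, 16, [5,6,10,11,12,13], false),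
  (102844034832575423306611775060478495941265165467435897000034304, 17, [7,8,9,10,11,12], false),
  (5986310708249645339245445576415322961246377472425984, 17, [3,4,5,12,13,14], false),
  (102844034832575423306611743159006592770541301942064184576966656, 18, [4,5,6,7,8,9], true),
  (784637716969007021646064414377233109820965620932957175808, 18, [3,4,11,12,13,14], false),
  (102844034862507296542631801058831415200514598075939361307230208, 20, [3,4,5,9,10,14], true),
  (784637716923335095482132133894539786330232014980627562496, 20, [3,10,11,12,13,14], false),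
  (102844034838561688341192954921252698169471353647494807549378560, 20, [1,3,5,10,12,14], false),
  (784637716923335443928617668613269774947125425457437605888, 21, [3,4,5,6,10,11], true),
  (102844034838561688341541401406625158860607395091384258053275648, 22, [1,2,3,4,5,12], true),
  (102844034832575377635034023053825118872854958924627386038747136, 22, [1,5,6,10,11,12], false),
  (102844034862507296542631798400395705266579882343490103242391552, 23, [3,4,8,9,10,14], true),
  (784637716923335443928617425224354498070875245973095317504, 23, [3,10,11,12,13,14], false),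
  (102844034838561688342935197981452186978768919541245223029440512, 23, [1,3,8,10,12,14], false),
  (784637716969007021659356674052827354276666043835636776960, 24, [3,7,8,9,10,11], true),
  (102844034838561688342935219249079837282555836257299731729874944, 25, [1,2,3,7,8,12], true),
  (102844034832575423306611740500550600581314519013709230834712576, 25, [1,8,9,10,11,12], false),
  (102844034862507296542631798400395705266277646276902695297089536, 26, [4,5,6,7,8,9], false),
  (102844034862507296542631798400395705266263479177452162237071360, 27, [1,2,3,4,5,6], true),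
  (102844034838561688342935304319671567517171706712619465889546240, 28, [3,4,5,6,7,14], false),
  (784637717517070135647811444413549121254944939500611567616, 30, [3,4,5,9,13,14], true),
  (5986310706507381011418301511570683245967292653633536, 30, [5,9,10,11,12,13], false),
  (784637717517070135645153008703615186539212490242546728960, 31, [3,4,8,9,13,14], true),
  (784637717517070135645153008703614884303145902834601426944, 33, [4,5,6,7,8,9], false),
  (784637717517070135645153008703614870136046452301541408768, 34, [1,2,3,4,5,6], true),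
  (102844034832575423306611860131070221223743084895973080002199552, 35, [3,4,5,6,7,14], false),
  (45671926201150644099282986701144599991585079296, 36, [5,6,7,11,12,13], false),
  (102844034838561688341541401406625158860909631157956272600907776, 37, [3,4,5,12,13,14], true),
  (102844034832575423306611753792992817552976709841204551138934784, 38, [4,5,6,7,11,12], false),
  (102844034838561688341192954921252698169849147568803198068588544, 40, [4,5,9,10,11,12], true),
  (784637716969007021648722850087167044536698070191022014464, 40, [3,4,11,12,13,14], false),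
  (102844034838561688341192954921252698169546911502231183520956416, 44, [1,2,3,4,5,12], true),
  (102844034832575423306611743159006592770116284355927097773391872, 44, [1,5,9,10,11,12], false),
  (102844034832575377635034023053825118873271712369419450992558080, 45, [3,4,11,12,13,14], true),
  (784637716969007021659356836311949479944597210557583982592, 45, [6,7,8,9,10,11], true),
  (102844034832575377635034023053825118872969476302847436444925952, 46, [4,5,6,10,11,12], false),
  (102844034832575377635034023053825118872856139507241247790071808, 47, [1,2,3,4,5,6], true),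
  (102844034832575423306611753792992817552559956396412486185123840, 47, [6,7,8,9,10,11], true),
  (102844034838561688342935197981452186978844477332931204203151360, 50, [1,2,3,4,8,12], true),
  (102844034832575423306611740500570882836181568686528234506420224, 50, [1,8,9,10,11,12], false),
  (102844034832575423306611775060478490989127214440653345842528256, 52, [7,8,9,10,11,12], false),
  (102844034838561688342935219249079837127814511893212262102466560, 52, [2,3,4,5,6,7], false),
  (102844034832575423306611743159006592151146264749268506119241728, 53, [1,2,3,7,8,9], true),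
  (102844034862507296542631798400395705266268201615992282319159296, 54, [1,2,3,4,8,9], false),
  (102844034862507296542631801058831414426491573314645084304572416, 55, [1,2,6,7,8,9], true),
  (102844034838561688342935219249079842234315993362773892368171008, 56, [1,3,5,7,12,14], false),
  (784637717517070135645153008703614874858484992421623496704, 60, [1,2,3,4,8,9], false),
  (784637717517070135647811444412775098230183645223608909824, 61, [1,2,6,7,8,9], true),
  (102844034832575423306611775060478495940887371546127506480824320, 62, [1,3,5,7,12,14], false),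
  (102844034832575423306611743159006592770239065875492170029334528, 68, [4,5,9,10,11,12], false),
  (102844034832575423306611743159006592770125729079887905549189120, 69, [1,2,3,4,5,9], true),
  (102844034832575423306611753792830558430473248556182991853322240, 69, [1,3,5,7,9,11], true),
  (102844034832575423306611740500570882836175665665374252673007616, 69, [1,5,6,7,8,9], false),
  (102844034832575423306611753792992817552674473774632536591302656, 72, [6,7,8,9,10,11], true),
  (102844034832575377635034023053825118872893919015564613654151168, 72, [1,2,3,4,11,12], false),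
  (102844034838561688341541401406625152670832821392382359569956864, 73, [1,2,6,10,11,12], true),
  (102844034832575423306611753792992817552561136979026347936448512, 73, [6,7,8,9,10,11], true),
  (102844034838561688342935219249079842234391551217510268339748864, 75, [4,5,6,7,8,12], true),
  (102844034832575423306611740500570882836304350143042911964495872, 75, [4,8,9,10,11,12], false),
  (102844034832575423306611740500570882836191013347438647484350464, 76, [1,2,3,4,8,9], true),
  (102844034832575423306611775060478490834385890076565876215119872, 77, [2,3,4,5,6,7], false),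
  (102844034838561688342935197981452186978764197102705102947352576, 78, [1,2,6,7,8,12], false),
  (102844034838561688341192954921252691360801137613956831632162816, 79, [1,2,9,10,11,12], true),
  (102844034832575423306611743159006591996404940385181036491833344, 79, [2,3,4,5,6,7], false),
  (102844034862507296542631798400375423011401151943173278647451648, 80, [3,4,5,6,7,8], false),
  (102844034862507296542631801058831414581232897678732553931980800, 81, [2,3,4,5,6,7], true),
  (102844034838561688342935197981452186978763016520091241196027904, 82, [1,5,6,7,8,12], false),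
  (784637717517070135645152988421360007808812173417951789056, 83, [3,4,5,6,7,8], false),
  (784637717517070135647811444412929839554547732693236318208, 84, [2,3,4,5,6,7], true),
  (102844034832575423306611775060478495940962929400863882452402176, 85, [1,2,3,4,5,12], true),
  (102844034832575423306611743159006592770163508588209347238559744, 86, [1,2,3,4,11,12], false),
  (102844034838561688341192954921252691979780601944576231062110208, 87, [1,2,9,10,11,12], true),
  (102844034832575423306611753792992817552598916487349713800527872, 88, [3,4,5,6,7,11], true),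
  (102844034832575377635034023053561447702749993092566125640155136, 88, [3,7,8,9,10,11], false),
  (102844034832575423306611740500570882836176846247988114424332288, 89, [1,2,3,4,5,6], true),
  (102844034832575377635034023053662860833965785711307211376427008, 91, [3,4,5,6,10,11], false),
  (102844034838561688341541401406625153908771680383379148866846720, 92, [2,3,4,5,6,10], true),
  (102844034838561688341192954921252691206059813249869362004754432, 92, [2,6,7,8,9,10], false),
  (102844034832575423306611740500570882836228792855760089173721088, 95, [1,2,3,4,11,12], false),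
  (102844034838561688341192952262816982045845886212126972997271552, 96, [1,2,9,10,11,12], true),
  (102844034862506931167570914819772399184690109293535791939584000, 98, [1,6,8,10,12,14], true),
  (102844034838561688341541401406523740777555887764638063130574848, 99, [2,3,7,8,9,10], true),
  (102844034862506931167570914819772399184688928710921930188259328, 103, [1,6,8,10,12,14], true),
  (102844034832575377634685576568290400142905302122154136844107776, 107, [3,4,5,9,10,11], false),
  (102844034838561688341192954921252693217711196794226074334527488, 108, [2,3,4,5,9,10], true),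
  (102844034832575377635034023053581729957617042765385129311862784, 110, [3,4,5,6,7,8], true),
  (102844034838561688341541401406544023032422937437457066802282496, 116, [2,3,4,8,9,10], true),
  (102844034862507296542631886130721218875741146065426817520500736, 117, [6,7,8,9,10,14], true),
  (784637716923335443928619615724591687721060272000055902208, 117, [6,10,11,12,13,14], false),
  (102844034862507296542631886130721218875739965482812955769176064, 119, [6,7,8,9,10,14], true),
  (784637716923335443928619615724591686540477658138304577536, 119, [6,10,11,12,13,14], false),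
  (784637717517070135732883334217224347802934426956824838144, 124, [9,10,11,12,13,14], false),
  (784637716969007021659358783423271392718532057100202278912, 125, [6,7,8,9,10,11], true),
  (784637717517070135732883334217224346622351813095073513472, 126, [9,10,11,12,13,14], false),
  (784637716969007021659358783423271391537949443238450954240, 127, [6,7,8,9,10,11], true),
  (784637717151697513905579042591908304482120477368819646464, 128, [6,7,8,9,13,14], false),
  (102844034832575423306611860132368295283635462827332216033378304, 129, [6,7,11,12,13,14], true),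
  (784637717151697513905579042591908303301537863507068321792, 130, [6,7,8,9,13,14], false),
  (102844034832575423306611860132368295283634282244718354282053632, 131, [6,7,11,12,13,14], true),
  (5986310711037217223381219631985730645386342514556928, 132, [8,9,10,11,12,13], false),
  (102844034838561688342935304320969641577064084643978601920724992, 133, [7,8,9,10,11,12], true),
  (5986310711037217223381219631984550062772480763232256, 134, [8,9,10,11,12,13], false),
  (102844034838561688342935304320969641577062904061364740169400320, 135, [7,8,9,10,11,12], true)]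

/-- Boolean version of `IsEdge` -/
def isE (c a b : ℕ) : Bool :=
  (decide (1 ≤ a) && decide (b = a + 1) && decide (b ≤ 14)) || (decide (a = 1) && decide (b = 14)) ||
    (decide (a < 15) && decide (b < 15) && c.testBit (ix a b))

theorem isEdge_of_isE {c a b : ℕ} (h : isE c a b = true) : IsEdge 14 (dec c) a b := by
  simp only [isE, Bool.or_eq_true, Bool.and_eq_true, decide_eq_true_eq] at h
  rcases h with (h | h) | h
  · exact Or.inl ⟨h.1.1, h.1.2, h.2⟩
  · exact Or.inr (Or.inl h)
  · exact Or.inr (Or.inr (mem_dec.2 ⟨h.1.1, h.1.2, h.2⟩))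

/-- Boolean version of `TwistAt` for codes -/
def tw (c c' a₁ a₂ a₃ a₄ a₅ a₆ : ℕ) : Bool :=
  decide (a₁ < a₂) && decide (a₂ < a₃) && decide (a₃ < a₄) && decide (a₄ < a₅) &&
  decide (a₅ < a₆) && decide (a₆ < 15) &&
  isE c a₁ a₂ && isE c a₂ a₃ && isE c a₃ a₄ && isE c a₄ a₅ && isE c a₅ a₆ && isE c a₁ a₆ &&
  c.testBit (ix a₁ a₃) && c.testBit (ix a₃ a₅) && c.testBit (ix a₁ a₅) &&
  (List.range 15).all fun a => (List.range 15).all fun b =>
    c'.testBit (ix a b) ==
      ((c.testBit (ix a b) && !(ix a b == ix a₁ a₃ || ix a b == ix a₃ a₅ || ix a b == ix a₁ a₅)) ||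
        (ix a b == ix a₂ a₄ || ix a b == ix a₄ a₆ || ix a b == ix a₂ a₆))

theorem bool_aux {a b : ℕ} (ha : a < 15) (hb : b < 15) (X : Bool) (x y₁ y₂ y₃ y₄ y₅ y₆ : ℕ) :
    (a < 15 ∧ b < 15 ∧ ((X && !(x == y₁ || x == y₂ || x == y₃)) ||
      (x == y₄ || x == y₅ || x == y₆)) = true) ↔
    ((a < 15 ∧ b < 15 ∧ X = true) ∧ ¬ (x = y₁ ∨ x = y₂ ∨ x = y₃)) ∨
      (x = y₄ ∨ x = y₅ ∨ x = y₆) := by
  simp only [ha, hb, true_and, Bool.or_eq_true, Bool.and_eq_true, Bool.not_eq_true',
    beq_iff_eq, Bool.or_eq_false_iff, beq_eq_false_iff_ne, ne_eq, not_or, and_assoc, or_assoc]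

theorem twistAt_of_tw {c c' a₁ a₂ a₃ a₄ a₅ a₆ : ℕ} (h : tw c c' a₁ a₂ a₃ a₄ a₅ a₆ = true) :
    TwistAt 14 (dec c) (dec c') a₁ a₂ a₃ a₄ a₅ a₆ := by
  simp only [tw, Bool.and_eq_true, decide_eq_true_eq, List.all_eq_true, List.mem_range] at h
  obtain ⟨⟨⟨⟨⟨⟨⟨⟨⟨⟨⟨⟨⟨⟨⟨h1, h2⟩, h3⟩, h4⟩, h5⟩, h6⟩, e1⟩, e2⟩, e3⟩, e4⟩, e5⟩, e6⟩, t1⟩, t2⟩, t3⟩, H⟩ := h
  refine ⟨h1, h2, h3, h4, h5, isEdge_of_isE e1, isEdge_of_isE e2, isEdge_of_isE e3,
    isEdge_of_isE e4, isEdge_of_isE e5, isEdge_of_isE e6, mem_dec.2 ⟨by omega, by omega, t1⟩,
    mem_dec.2 ⟨by omega, by omega, t2⟩, mem_dec.2 ⟨by omega, by omega, t3⟩, ?_⟩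
  ext ⟨a, b⟩
  rw [mem_dec, Finset.mem_union, Finset.mem_sdiff, mem_dec]
  simp only [Finset.mem_insert, Finset.mem_singleton, Prod.mk.injEq]
  by_cases hab : a < 15 ∧ b < 15
  · obtain ⟨ha, hb⟩ := hab
    have := H a ha b hb
    rw [beq_iff_eq] at this
    rw [this, ← ix_inj (a := a) (b := b) (c := a₁) (d := a₃) (by omega) (by omega),
      ← ix_inj (a := a) (b := b) (c := a₃) (d := a₅) (by omega) (by omega),
      ← ix_inj (a := a) (b := b) (c := a₁) (d := a₅) (by omega) (by omega),
      ← ix_inj (a := a) (b := b) (c := a₂) (d := a₄) (by omega) (by omega),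
      ← ix_inj (a := a) (b := b) (c := a₄) (d := a₆) (by omega) (by omega),
      ← ix_inj (a := a) (b := b) (c := a₂) (d := a₆) (by omega) (by omega)]
    exact bool_aux ha hb _ _ _ _ _ _ _ _
  · constructor
    · rintro ⟨g1, g2, _⟩
      exact absurd ⟨g1, g2⟩ hab
    · rintro (⟨⟨g1, g2, _⟩, _⟩ | g | g | g)
      · exact absurd ⟨g1, g2⟩ hab
      · omega
      · omega
      · omega

/-- the entry of the table with number `n` -/
def ent (n : ℕ) : ℕ × ℕ × List ℕ × Bool := table.getD n (0, 0, [], true)

/-- check of one entry: the code of the parent and this code differ by the given twist -/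
def chk (n : ℕ) : Bool :=
  match ent n with
  | (c, p, [a₁, a₂, a₃, a₄, a₅, a₆], d) =>
    decide (p < n) && (if d then tw (ent p).1 c a₁ a₂ a₃ a₄ a₅ a₆ else tw c (ent p).1 a₁ a₂ a₃ a₄ a₅ a₆)
  | _ => false

theorem chk_all : ∀ n < 139, chk (n + 1) = true := by decide +kernel

theorem enum_sub : ∀ c ∈ enumC 13 1 14, ∃ n < 140, (ent n).1 = c := by decide +kernel

/-! ## All entries of the table are colorful triangulations -/

/-- all pairs of numbers less than `15` -/
def pairs : List (ℕ × ℕ) := (List.range 15).flatMap fun a => (List.range 15).map fun b => (a, b)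

theorem mem_pairs {e : ℕ × ℕ} : e ∈ pairs ↔ e.1 < 15 ∧ e.2 < 15 := by
  obtain ⟨a, b⟩ := e
  simp [pairs]

/-- Boolean version of `Cross` -/
def crossB (e f : ℕ × ℕ) : Bool :=
  (decide (e.1 < f.1) && decide (f.1 < e.2) && decide (e.2 < f.2)) ||
    (decide (f.1 < e.1) && decide (e.1 < f.2) && decide (f.2 < e.2))

theorem crossB_iff {e f : ℕ × ℕ} : crossB e f = true ↔ Cross e f := by
  simp only [crossB, Cross, Bool.or_eq_true, Bool.and_eq_true, decide_eq_true_eq, and_assoc]

/-- Boolean version of `IsDiagonal 14` -/
def diagB (e : ℕ × ℕ) : Bool :=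
  decide (1 ≤ e.1) && decide (e.1 + 2 ≤ e.2) && decide (e.2 ≤ 14) &&
    !(decide (e.1 = 1) && decide (e.2 = 14))

theorem diagB_iff {e : ℕ × ℕ} : diagB e = true ↔ IsDiagonal 14 e := by
  simp only [diagB, IsDiagonal, Bool.and_eq_true, decide_eq_true_eq, Bool.not_eq_true',
    Bool.and_eq_false_iff, decide_eq_false_iff_not, and_assoc]
  tauto

/-- the code `c` belongs to a triangulation -/
def okT (c : ℕ) : Bool :=
  let L := pairs.filter fun e => c.testBit (ix e.1 e.2)
  L.all diagB && (L.all fun e => L.all fun f => !crossB e f) &&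
    pairs.all fun e => !diagB e || c.testBit (ix e.1 e.2) || L.any (crossB e)

theorem isTriangulation_of_okT {c : ℕ} (h : okT c = true) : IsTriangulation 14 (dec c) := by
  simp only [okT, Bool.and_eq_true, List.all_eq_true, List.mem_filter, Bool.or_eq_true,
    Bool.not_eq_true', List.any_eq_true, mem_pairs] at h
  obtain ⟨⟨h1, h2⟩, h3⟩ := h
  refine ⟨?_, ?_, ?_⟩
  · rintro ⟨a, b⟩ he
    rw [mem_dec] at he
    exact diagB_iff.1 (h1 _ ⟨⟨he.1, he.2.1⟩, he.2.2⟩)
  · rintro ⟨a, b⟩ he ⟨a', b'⟩ hf hcr
    rw [mem_dec] at he hf
    have := h2 (a, b) ⟨⟨he.1, he.2.1⟩, he.2.2⟩ (a', b') ⟨⟨hf.1, hf.2.1⟩, hf.2.2⟩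
    rw [crossB_iff.2 hcr] at this
    exact absurd this (by simp)
  · rintro ⟨a, b⟩ he hf
    have he' := he
    simp only [IsDiagonal] at he'
    rcases h3 (a, b) ⟨by simp only; omega, by simp only; omega⟩ with (h | h) | h
    · rw [diagB_iff.2 he] at h
      exact absurd h (by simp)
    · exact mem_dec.2 ⟨by omega, by omega, h⟩
    · obtain ⟨⟨a', b'⟩, h4, h5⟩ := h
      exact absurd (crossB_iff.1 h5) (hf _ (mem_dec.2 ⟨h4.1.1, h4.1.2, h4.2⟩))

theorem isE_of_isEdge {c a b : ℕ} (h : IsEdge 14 (dec c) a b) : isE c a b = true := by
  simp only [isE, Bool.or_eq_true, Bool.and_eq_true, decide_eq_true_eq]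
  rcases h with h | h | h
  · exact Or.inl (Or.inl ⟨⟨h.1, h.2.1⟩, h.2.2⟩)
  · exact Or.inl (Or.inr h)
  · rw [mem_dec] at h
    exact Or.inr ⟨⟨h.1, h.2.1⟩, h.2.2⟩

/-- the triangulation with code `c` is colorful -/
def colB (c : ℕ) : Bool :=
  (List.range 15).all fun a => (List.range 15).all fun b => !(decide (a < b) && isE c a b) ||
    (List.range 15).all fun d => !(decide (b < d) && isE c b d && isE c a d) ||
      (decide (a % 3 ≠ b % 3) && decide (b % 3 ≠ d % 3) && decide (a % 3 ≠ d % 3))

theorem colorful_of_colB {c : ℕ} (h : colB c = true) :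
    Colorful 14 (dec c) := by
  rintro a b d ⟨h1, h2, h3, h4, h5⟩
  have hd : d < 15 := by
    rcases h4 with h4 | h4 | h4
    · omega
    · omega
    · exact (mem_dec.1 h4).2.1
  simp only [colB, List.all_eq_true, List.mem_range, Bool.or_eq_true, Bool.not_eq_true',
    Bool.and_eq_true, decide_eq_true_eq] at h
  rcases h a (by omega) b (by omega) with h' | h'
  · rw [isE_of_isEdge h3, Bool.and_true, decide_eq_false_iff_not] at h'
    exact absurd h1 h'
  · rcases h' d hd with h'' | h''
    · rw [isE_of_isEdge h4, isE_of_isEdge h5, Bool.and_true, Bool.and_true,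
        decide_eq_false_iff_not] at h''
      exact absurd h2 h''
    · exact ⟨h''.1.1, h''.1.2, h''.2⟩

theorem all_ok : ∀ n < 140, okT (ent n).1 = true ∧ colB (ent n).1 = true := by decide +kernel

/-- the `n`-th vertex of the graph -/
def vert (n : ℕ) (hn : n < 140) :
    {T : Finset (ℕ × ℕ) // IsTriangulation 14 T ∧ Colorful 14 T} :=
  ⟨dec (ent n).1, isTriangulation_of_okT (all_ok n hn).1,
    colorful_of_colB (all_ok n hn).2⟩

theorem exists_vert (T : {T : Finset (ℕ × ℕ) // IsTriangulation 14 T ∧ Colorful 14 T}) :
    ∃ (n : ℕ) (hn : n < 140), T = vert n hn := by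
  obtain ⟨c, hc, h⟩ := eq_dec T.2.1 T.2.2
  obtain ⟨n, hn, hnc⟩ := enum_sub c hc
  exact ⟨n, hn, Subtype.ext (by rw [h, ← hnc]; rfl)⟩

theorem twist_parent (n : ℕ) (hn : n < 139) : ∃ p < n + 1,
    Twist 14 (dec (ent p).1) (dec (ent (n + 1)).1) := by
  have h := chk_all n hn
  unfold chk at h
  split at h
  · rename_i c p a₁ a₂ a₃ a₄ a₅ a₆ d heq
    rw [heq]
    rw [Bool.and_eq_true, decide_eq_true_eq] at h
    refine ⟨p, h.1, a₁, a₂, a₃, a₄, a₅, a₆, ?_⟩
    cases d with
    | true => exact Or.inl (twistAt_of_tw (by simpa using h.2))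
    | false => exact Or.inr (twistAt_of_tw (by simpa using h.2))
  · exact absurd h (by simp)

theorem reach : ∀ (n : ℕ) (hn : n < 140), (twistGraph 14).Reachable (vert 0 (by omega)) (vert n hn) := by
  intro n
  induction n using Nat.strong_induction_on with
  | _ n ih =>
    intro hn
    rcases n with _ | n
    · exact SimpleGraph.Reachable.refl _
    · obtain ⟨p, hp, htw⟩ := twist_parent n (by omega)
      have h1 := ih p hp (by omega)
      by_cases heq : vert p (by omega) = vert (n + 1) hn
      · rw [← heq]
        exact h1
      · exact h1.trans (SimpleGraph.Adj.reachable (show (twistGraph 14).Adj _ _ from ⟨heq, htw⟩))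

/-- The graph `𝓗₁₄` of the colorful triangulations of the convex 14-gon is connected; so it is not
true that `𝓗_N` is disconnected for every `N ≥ 8` with `N ≡ 2 (mod 3)`. -/
theorem result : (twistGraph 14).Connected ∧
    ¬ ∀ N : ℕ, 8 ≤ N → N % 3 = 2 → ¬ (twistGraph N).Connected := by
  have h : (twistGraph 14).Connected := by
    have : Nonempty {T : Finset (ℕ × ℕ) // IsTriangulation 14 T ∧ Colorful 14 T} :=
      ⟨vert 0 (by omega)⟩
    refine ⟨fun T T' => ?_⟩
    obtain ⟨n, hn, rfl⟩ := exists_vert T
    obtain ⟨n', hn', rfl⟩ := exists_vert T'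
    exact (reach n hn).symm.trans (reach n' hn')
  exact ⟨h, fun H => H 14 (by norm_num) (by norm_num) h⟩

end Pool.Agent.Results.MP_b57ad3_co.TwistConnected
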